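import Pool.Agent.LSG.StmtsA

/-!
# Row GNT of squad LSG: the group is not everything
-/

set_option autoImplicit false

open MeasureTheory Set Topology

namespace Pool.Agent.LSG.H92

/-- **Row GNT** -/
theorem gnt (h1 : MukStmt) : GntStmt := by
  intro G hG hGt
  obtain ⟨hprob, -, hpt, -⟩ := h1
  have hna : NullSingletonClass mu := ⟨hpt⟩
  obtain ⟨φ, hφ⟩ : ∃ φ : K → K, ∀ x n, φ x n = x (n + 1) := ⟨fun x n => x (n + 1), fun _ _ => rfl⟩
  have hφm : Measurable φ := by
    refine measurable_pi_iff.2 fun n => ?_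
    have e : (fun x => φ x n) = fun x : K => x (n + 1) := funext fun x => hφ x n
    rw [e]
    exact measurable_pi_apply (n + 1)
  obtain ⟨S, hS1, -, hS3⟩ := hG.star Set.univ φ MeasurableSet.univ hφm
    (fun x _ _ => by rw [hGt]; exact AddSubgroup.mem_top _)
  have c1 : {x : K | φ x ∈ S}.Countable := by
    refine Set.countable_of_injective_of_countable_image (f := fun x : K => (x 0, φ x)) ?_ ?_
    · intro x _ y _ hxy
      obtain ⟨h0, h2⟩ := Prod.mk.inj hxy
      funext n
      cases n with
      | zero => exact h0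
      | succ n => rw [← hφ x n, ← hφ y n, h2]
    · refine Set.Countable.mono ?_ ((Set.countable_univ (α := ZMod 2)).prod hS1)
      rintro _ ⟨x, hx, rfl⟩
      exact ⟨Set.mem_univ _, hx⟩
  have c2 : {x : K | φ x - x ∈ S}.Countable := by
    refine Set.countable_of_injective_of_countable_image (f := fun x : K => (x 0, φ x - x)) ?_ ?_
    · intro x _ y _ hxy
      obtain ⟨h0, h2⟩ := Prod.mk.inj hxy
      funext n
      induction n with
      | zero => exact h0
      | succ n ih =>
        have h3 := congrFun h2 n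
        rw [Pi.sub_apply, Pi.sub_apply, hφ, hφ, ih] at h3
        exact sub_left_injective h3
    · refine Set.Countable.mono ?_ ((Set.countable_univ (α := ZMod 2)).prod hS1)
      rintro _ ⟨x, hx, rfl⟩
      exact ⟨Set.mem_univ _, hx⟩
  have hcov : (Set.univ : Set K) ⊆ ({x : K | φ x ∈ S} ∪ {x : K | φ x - x ∈ S}) ∪
      {x | x ∈ Set.univ ∧ φ x ∉ S ∧ φ x - x ∉ S} := by
    intro x _
    by_cases ha : φ x ∈ S
    · exact Or.inl (Or.inl ha)
    · by_cases hb : φ x - x ∈ S
      · exact Or.inl (Or.inr hb)
      · exact Or.inr ⟨Set.mem_univ _, ha, hb⟩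
  have hz : mu (Set.univ : Set K) = 0 := by
    refine measure_mono_null hcov ?_
    refine measure_union_null (measure_union_null ?_ ?_) hS3
    · exact c1.measure_zero mu
    · exact c2.measure_zero mu
  have h1' : mu (Set.univ : Set K) = 1 := hprob.measure_univ
  rw [hz] at h1'
  exact zero_ne_one h1'

end Pool.Agent.LSG.H92
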