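import Pool.Agent.LSG.StmtsB

/-!
# Row NSD of squad LSG
-/

set_option autoImplicit false

open MeasureTheory Set Topology

namespace Pool.Agent.LSG.H92

theorem metG (G : AddSubgroup K) : TopologicalSpace.MetrizableSpace G :=
  Topology.IsEmbedding.subtypeVal.metrizableSpace

/-- a cylinder of depth `n` in `G` such that all supports over it are bounded by `M` -/
theorem bounded_cylinder (h2 : BdsStmt) (h3 : ClpStmt) (h4 : BaiStmt) {G : AddSubgroup K}
    (hU : Unc G) (U : C(G × ℤ, ℝ) →ₗ[ℝ] C(G × OnePoint ℕ, ℝ))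
    (c : G × OnePoint ℕ → (G × ℤ) →₀ ℝ) (hc : Rep U c) :
    ∃ (M n : ℕ) (s : K), ∀ x : G, (∀ i < n, (x : K) i = s i) →
      ∀ (m : OnePoint ℕ) (a : G × ℤ), c (x, m) a ≠ 0 → |a.2| ≤ M := by
  have hmG := metG G
  obtain ⟨P, hP⟩ : ∃ P : ℕ → Set G, ∀ M x, x ∈ P M ↔
      ∀ (m : OnePoint ℕ) (a : G × ℤ), c (x, m) a ≠ 0 → |a.2| ≤ M :=
    ⟨fun M => {x | ∀ (m : OnePoint ℕ) (a : G × ℤ), c (x, m) a ≠ 0 → |a.2| ≤ M},
      fun _ _ => Iff.rfl⟩
  have hcl : ∀ M, IsClosed (P M) := by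
    intro M
    have hF : IsClosed {a : G × ℤ | |a.2| ≤ (M : ℤ)} :=
      (isClosed_discrete {z : ℤ | |z| ≤ (M : ℤ)}).preimage continuous_snd
    have h5 := h3 (G × ℤ) (G × OnePoint ℕ) U c hc _ hF
    have e : P M = ⋂ m : OnePoint ℕ, (fun x : G => (x, m)) ⁻¹'
        {y : G × OnePoint ℕ | ∀ a : G × ℤ, c y a ≠ 0 → a ∈ {a : G × ℤ | |a.2| ≤ (M : ℤ)}} := by
      ext x
      rw [hP, Set.mem_iInter]
      exact Iff.rfl
    rw [e]
    exact isClosed_iInter fun m => h5.preimage (by fun_prop)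
  have hcov : ∀ x : G, ∃ M, x ∈ P M := by
    intro x
    have hQ : IsCompact (Set.range fun m : OnePoint ℕ => (x, m)) :=
      isCompact_range (by fun_prop)
    obtain ⟨M, hM⟩ := h2 G (G × OnePoint ℕ) U c hc _ hQ
    refine ⟨M, (hP M x).2 fun m a ha => hM (x, m) ⟨m, rfl⟩ a ha⟩
  obtain ⟨M, n, s, hs⟩ := h4 G hU P hcl hcov
  exact ⟨M, n, s, fun x hx => (hP M x).1 (hs x hx)⟩

/-- the measure of the set of layers below `L` over a measurable set -/
theorem dm_layers (h6 : OutStmt) {G : AddSubgroup K} (hG : Big G) {k : ℕ} (L : ℕ) (hL : L ≤ k)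
    (E : Set K) (hE : MeasurableSet E) (A : Set (G × Fin k))
    (hA : ∀ p : G × Fin k, p ∈ A ↔ p.2.val < L ∧ (p.1 : K) ∈ E) : dm A = L * mu E := by
  have h1 : ∀ i : Fin k, mu (sl A i) = if i.val < L then mu E else 0 := by
    intro i
    split_ifs with h
    · rw [← h6 G hG E hE]
      congr 1
      ext x
      constructor
      · rintro ⟨hx, hxA⟩
        exact ⟨hx, ((hA _).1 hxA).2⟩
      · rintro ⟨hx, hxE⟩
        exact ⟨hx, (hA _).2 ⟨h, hxE⟩⟩
    · have : sl A i = ∅ := by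
        ext x
        constructor
        · rintro ⟨hx, hxA⟩
          exact absurd ((hA _).1 hxA).1 h
        · intro hx
          exact absurd hx (Set.notMem_empty x)
      rw [this, measure_empty]
  unfold dm
  rw [Finset.sum_congr rfl fun i _ => h1 i,
    Fin.sum_univ_eq_sum_range (fun i => if i < L then mu E else 0) k, ← Finset.sum_filter,
    Finset.sum_const, nsmul_eq_mul]
  congr 2
  have : (Finset.range k).filter (fun i => i < L) = Finset.range L := by
    ext i
    rw [Finset.mem_filter, Finset.mem_range, Finset.mem_range]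
    omega
  rw [this, Finset.card_range]

/-- the indicator function of a finite point of the convergent sequence -/
theorem delta_cont (m : ℕ) : ∃ d : C(OnePoint ℕ, ℝ), d (m : OnePoint ℕ) = 1 ∧
    ∀ m' : ℕ, m' ≠ m → d (m' : OnePoint ℕ) = 0 := by
  have h1 : IsClopen {(m : OnePoint ℕ)} := by
    refine ⟨isClosed_singleton, ?_⟩
    have h2 := OnePoint.isOpenEmbedding_coe.isOpenMap ({m} : Set ℕ) (isOpen_discrete _)
    rwa [Set.image_singleton] at h2
  refine ⟨⟨_, (LocallyConstant.charFn ℝ h1).continuous⟩, ?_, ?_⟩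
  · show (LocallyConstant.charFn ℝ h1) (m : OnePoint ℕ) = 1
    rw [LocallyConstant.coe_charFn]
    simp
  · intro m' hm'
    show (LocallyConstant.charFn ℝ h1) (m' : OnePoint ℕ) = 0
    rw [LocallyConstant.coe_charFn, Set.indicator_of_notMem]
    intro h
    exact hm' (OnePoint.coe_injective (Set.mem_singleton_iff.1 h))

/-- a function on a finite union of layers, moved to the convergent sequence -/
theorem move_function {G : AddSubgroup K} {k : ℕ} (B : Set (G × Fin k)) (hB : IsClopen B)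
    (g : C(B, ℝ)) : ∃ h : C(G × OnePoint ℕ, ℝ), ∀ b : B,
      h (b.1.1, ((b.1.2.val : ℕ) : OnePoint ℕ)) = g b := by
  have hmG := metG G
  obtain ⟨g', hg'⟩ := ContinuousMap.exists_restrict_eq hB.isClosed g
  choose d hd1 hd2 using delta_cont
  refine ⟨⟨fun p => ∑ i : Fin k, d i.val p.2 * g' (p.1, i), ?_⟩, ?_⟩
  · refine continuous_finsetSum _ fun i _ => ?_
    exact ((d i.val).continuous.comp continuous_snd).mul
      (g'.continuous.comp (by fun_prop))
  · intro b
    show ∑ i : Fin k, d i.val ((b.1.2.val : ℕ) : OnePoint ℕ) * g' (b.1.1, i) = g b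
    rw [Finset.sum_eq_single b.1.2]
    · rw [hd1, one_mul, ← hg']
      rfl
    · intro i _ hi
      rw [hd2 i.val b.1.2.val (fun h => hi (Fin.ext h.symm)), zero_mul]
    · intro h
      exact absurd (Finset.mem_univ _) h

theorem cyl_clopen (n : ℕ) (s : K) : IsClopen {x : K | ∀ i < n, x i = s i} := by
  have e : {x : K | ∀ i < n, x i = s i} =
      (fun x : K => fun i : Fin n => x i.val) ⁻¹' {fun i : Fin n => s i.val} := by
    ext x
    constructor
    · intro h
      exact funext fun i => h i.val i.2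
    · intro h i hi
      exact congrFun h ⟨i, hi⟩
  rw [e]
  refine (isClopen_discrete _).preimage ?_
  exact continuous_pi fun i => continuous_apply i.val

theorem layers_clopen {G : AddSubgroup K} {k : ℕ} (L : ℕ) {E : Set K} (hE : IsClopen E)
    (A : Set (G × Fin k)) (hA : ∀ p : G × Fin k, p ∈ A ↔ p.2.val < L ∧ (p.1 : K) ∈ E) :
    IsClopen A := by
  have e : A = (Prod.snd ⁻¹' {i : Fin k | i.val < L}) ∩
      ((fun p : G × Fin k => (p.1 : K)) ⁻¹' E) := by
    ext p
    exact hA p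
  rw [e]
  refine ((isClopen_discrete _).preimage continuous_snd).inter (hE.preimage ?_)
  exact continuous_subtype_val.comp continuous_fst

/-- **Row NSD** -/
theorem nsd (h1 : RpvStmt) (h2 : BdsStmt) (h3 : ClpStmt) (h4 : BaiStmt) (h5 : MaiStmt)
    (h6 : OutStmt) (h7 : CylStmt) : NsdStmt := by
  classical
  intro G hG hU hD
  obtain ⟨U, hUc, hUd⟩ := hD
  obtain ⟨c, hc⟩ := h1 (G × ℤ) (G × OnePoint ℕ) U hUc
  obtain ⟨M, n, s, hM⟩ := bounded_cylinder h2 h3 h4 hU U c hc
  obtain ⟨N, hN⟩ : ∃ N, N = (2 * M + 2) * 2 ^ n := ⟨_, rfl⟩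
  obtain ⟨k, hk⟩ : ∃ k, k = N + (2 * M + 1) := ⟨_, rfl⟩
  obtain ⟨A, hA⟩ : ∃ A : Set (G × Fin k), ∀ p : G × Fin k, p ∈ A ↔
      p.2.val < 2 * M + 1 ∧ (p.1 : K) ∈ (Set.univ : Set K) :=
    ⟨{p | p.2.val < 2 * M + 1 ∧ (p.1 : K) ∈ (Set.univ : Set K)}, fun _ => Iff.rfl⟩
  obtain ⟨B, hB⟩ : ∃ B : Set (G × Fin k), ∀ p : G × Fin k, p ∈ B ↔
      p.2.val < N ∧ (p.1 : K) ∈ {x : K | ∀ i < n, x i = s i} :=
    ⟨{p | p.2.val < N ∧ (p.1 : K) ∈ {x : K | ∀ i < n, x i = s i}}, fun _ => Iff.rfl⟩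
  have hAcl : IsClopen A := layers_clopen _ isClopen_univ A hA
  have hBcl : IsClopen B := layers_clopen _ (cyl_clopen n s) B hB
  have hmu1 : mu (Set.univ : Set K) = 1 := by
    have h := h7 0 s
    have e : {x : K | ∀ i < 0, x i = s i} = Set.univ := by
      ext x
      simp
    rw [e] at h
    rw [h]
    simp
  have hdA : dm A = ((2 * M + 1 : ℕ) : ENNReal) := by
    rw [dm_layers h6 hG (2 * M + 1) (by omega) Set.univ MeasurableSet.univ A hA, hmu1, mul_one]
  have hdB : dm B = ((2 * M + 2 : ℕ) : ENNReal) := by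
    rw [dm_layers h6 hG N (by omega) _ (cyl_clopen n s).isOpen.measurableSet B hB, h7 n s, hN,
      Nat.cast_mul, mul_assoc, Nat.cast_pow, Nat.cast_ofNat, ENNReal.mul_inv_cancel, mul_one]
    · exact pow_ne_zero _ (by norm_num)
    · exact ENNReal.pow_ne_top (by norm_num)
  have hlt : dm A < dm B := by
    rw [hdA, hdB]
    exact_mod_cast Nat.lt_succ_self (2 * M + 1)
  refine h5 G hG k A B hAcl hBcl hlt ?_
  -- the index map
  obtain ⟨j, hj0, hj1⟩ : ∃ j : ℤ → Fin k, (∀ z, (j z).val < 2 * M + 1) ∧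
      ∀ z : ℤ, |z| ≤ M → ((j z).val : ℤ) = z + M := by
    have hb : ∀ z : ℤ, (if |z| ≤ (M : ℤ) then (z + M).toNat else 0) < 2 * M + 1 := by
      intro z
      split_ifs with h
      · have := abs_le.1 h
        omega
      · omega
    refine ⟨fun z => ⟨if |z| ≤ (M : ℤ) then (z + M).toNat else 0,
      (hb z).trans_le (by omega)⟩, hb, ?_⟩
    intro z hz
    show (((if |z| ≤ (M : ℤ) then (z + M).toNat else 0 : ℕ)) : ℤ) = z + M
    rw [if_pos hz]
    have := abs_le.1 hz
    omega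
  obtain ⟨r, hr⟩ : ∃ r : C(G × ℤ, A), ∀ p, (r p).1 = (p.1, j p.2) := by
    refine ⟨⟨fun p => ⟨(p.1, j p.2), (hA _).2 ⟨hj0 _, Set.mem_univ _⟩⟩, ?_⟩, fun _ => rfl⟩
    exact Continuous.subtype_mk (continuous_fst.prodMk
      (continuous_of_discreteTopology.comp continuous_snd)) _
  obtain ⟨χ, hχ⟩ : ∃ χ : C(G × ℤ, ℝ), ∀ p, χ p = if |p.2| ≤ (M : ℤ) then 1 else 0 := by
    refine ⟨⟨fun p => if |p.2| ≤ (M : ℤ) then 1 else 0, ?_⟩, fun _ => rfl⟩
    exact (continuous_of_discreteTopology (f := fun z : ℤ => if |z| ≤ (M : ℤ) then (1 : ℝ) else 0)).comp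
      continuous_snd
  obtain ⟨E, hE⟩ : ∃ E : C(A, ℝ) →ₗ[ℝ] C(G × ℤ, ℝ), ∀ f p, E f p = χ p * f (r p) := by
    refine ⟨{ toFun := fun f => χ * f.comp r, map_add' := ?_, map_smul' := ?_ }, fun _ _ => rfl⟩
    · intro f g
      ext p
      show χ p * (f (r p) + g (r p)) = χ p * f (r p) + χ p * g (r p)
      ring
    · intro t f
      ext p
      show χ p * (t * f (r p)) = t * (χ p * f (r p))
      ring
  obtain ⟨q, hq⟩ : ∃ q : C(B, G × OnePoint ℕ), ∀ b : B,
      q b = (b.1.1, ((b.1.2.val : ℕ) : OnePoint ℕ)) := by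
    refine ⟨⟨fun b => (b.1.1, ((b.1.2.val : ℕ) : OnePoint ℕ)), ?_⟩, fun _ => rfl⟩
    refine (continuous_fst.comp continuous_subtype_val).prodMk ?_
    exact (continuous_of_discreteTopology (f := fun i : Fin k => ((i.val : ℕ) : OnePoint ℕ))).comp
      (continuous_snd.comp continuous_subtype_val)
  obtain ⟨V, hV⟩ : ∃ V : C(A, ℝ) →ₗ[ℝ] C(B, ℝ), ∀ f b, V f b = U (E f) (q b) := by
    refine ⟨{ toFun := fun f => (U (E f)).comp q, map_add' := ?_, map_smul' := ?_ },
      fun _ _ => rfl⟩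
    · intro f g
      rw [map_add, map_add]
      rfl
    · intro t f
      rw [map_smul, map_smul]
      rfl
  refine ⟨V, ?_, ?_⟩
  · have e1 : Continuous fun f : {g : A → ℝ // Continuous g} =>
        (⟨⇑(E ⟨f.1, f.2⟩), (E ⟨f.1, f.2⟩).continuous⟩ : {g : G × ℤ → ℝ // Continuous g}) := by
      refine Continuous.subtype_mk (continuous_pi fun p => ?_) _
      have e : (fun f : {g : A → ℝ // Continuous g} => (E ⟨f.1, f.2⟩) p) =
          fun f : {g : A → ℝ // Continuous g} => χ p * f.1 (r p) := by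
        funext f
        rw [hE]
        rfl
      rw [e]
      exact continuous_const.mul ((continuous_apply (r p)).comp continuous_subtype_val)
    have e2 := hUc.comp e1
    refine continuous_pi fun b => ?_
    have e3 : (fun f : {g : A → ℝ // Continuous g} => (V ⟨f.1, f.2⟩) b) =
        fun f : {g : A → ℝ // Continuous g} => (U (E ⟨f.1, f.2⟩)) (q b) := by
      funext f
      rw [hV]
    rw [e3]
    exact (continuous_apply (q b)).comp e2
  · intro g F ε hε
    obtain ⟨h, hh⟩ := move_function B hBcl g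
    obtain ⟨f', hf'⟩ := hUd h (F.image q) ε hε
    obtain ⟨f, hf⟩ : ∃ f : C(A, ℝ), ∀ a : A, f a = f' (a.1.1, (a.1.2.val : ℤ) - M) := by
      refine ⟨⟨fun a => f' (a.1.1, (a.1.2.val : ℤ) - M), ?_⟩, fun _ => rfl⟩
      refine f'.continuous.comp ((continuous_fst.comp continuous_subtype_val).prodMk ?_)
      exact (continuous_of_discreteTopology (f := fun i : Fin k => (i.val : ℤ) - M)).comp
        (continuous_snd.comp continuous_subtype_val)
    refine ⟨f, fun y hy => ?_⟩
    have hcyl : ∀ i < n, ((y.1.1 : G) : K) i = s i := ((hB y.1).1 y.2).2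
    have hkey : V f y = U f' (q y) := by
      rw [hV, hc (E f) (q y), hc f' (q y)]
      refine Finsupp.sum_congr fun x hx => ?_
      have hx' : c (q y) x ≠ 0 := Finsupp.mem_support_iff.1 hx
      rw [hq] at hx'
      have hxM := hM y.1.1 hcyl _ x hx'
      congr 1
      rw [hE, hχ, if_pos hxM, one_mul, hf, hr]
      show f' (x.1, ((j x.2).val : ℤ) - M) = f' x
      rw [hj1 x.2 hxM]
      congr 1
      exact Prod.ext rfl (by simp)
    have h8 := hf' (q y) (Finset.mem_image_of_mem _ hy)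
    rw [hkey]
    rwa [show h (q y) = g y by rw [hq]; exact hh y] at h8

end Pool.Agent.LSG.H92
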