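import Pool.Agent.LSG.Stmts

/-!
# Row SUP of squad LSG: the supports are translates, up to a null set
-/

set_option autoImplicit false

open MeasureTheory Set Topology

namespace Pool.Agent.LSG.H92

/-- isolation of a support point by a box -/
theorem isolate (h1 : BoxStmt) {G : AddSubgroup K} {k : ℕ} {A : Set (G × Fin k)} (d : A →₀ ℝ)
    (a : A) (ha : d a ≠ 0) : ∃ v : Ix k, Only d v a := by
  classical
  obtain ⟨-, -, hb⟩ := h1 G k
  obtain ⟨F, hF⟩ : ∃ F : Set (G × Fin k), F = Subtype.val '' {q : A | d q ≠ 0 ∧ q ≠ a} :=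
    ⟨_, rfl⟩
  have hFfin : F.Finite := by
    rw [hF]
    refine Set.Finite.image _ (Set.Finite.subset d.support.finite_toSet ?_)
    intro q hq
    rw [Finset.mem_coe, Finsupp.mem_support_iff]
    exact hq.1
  have hmem : a.1 ∈ Fᶜ := by
    rw [hF]
    rintro ⟨q, ⟨-, hq⟩, hqa⟩
    exact hq (Subtype.ext hqa)
  obtain ⟨v, hv, hvF⟩ := hb Fᶜ hFfin.isClosed.isOpen_compl a.1 hmem
  refine ⟨v, ha, hv, fun q hq hqv => ?_⟩
  by_contra hne
  have h5 := hvF hqv
  rw [hF] at h5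
  exact h5 ⟨q, ⟨hq, hne⟩, rfl⟩

/-- **Row SUP** -/
theorem sup (h1 : BoxStmt) (h2 : TrcStmt) (h3 : PhiStmt) : SupStmt := by
  classical
  intro G hG k A B hA hB T c hTc
  have h4 := h3 G k A B hA hB T c hTc
  choose E φ hE hφ hEφ using h4
  have hcount : Countable (Ix k) := (h1 G k).1
  have hval : ∀ v i, ∀ x ∈ G, x ∈ E v i → φ v i x ∈ G := by
    intro v i x hx hxE
    obtain ⟨h5, h6⟩ := hEφ v i x hx
    obtain ⟨hB', p, hp⟩ := h5.1 hxE
    rw [h6 hB' p hp]
    exact p.1.1.2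
  refine ⟨?_, ?_⟩
  · choose S hS1 hS2 hS3 using fun v i => hG.star (E v i) (φ v i) (hE v i) (hφ v i) (hval v i)
    refine ⟨⋃ v, ⋃ i, S v i,
      ⋃ v, ⋃ i, {x | x ∈ E v i ∧ φ v i x ∉ S v i ∧ φ v i x - x ∉ S v i}, ?_, ?_, ?_, ?_⟩
    · exact Set.countable_iUnion fun v => Set.countable_iUnion fun i => hS1 v i
    · exact Set.iUnion_subset fun v => Set.iUnion_subset fun i => hS2 v i
    · exact measure_iUnion_null fun v => measure_iUnion_null fun i => hS3 v i
    · intro b hb a ha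
      obtain ⟨v, hv⟩ := isolate h1 (c b) a ha
      obtain ⟨h5, h6⟩ := hEφ v b.1.2 (b.1.1 : K) b.1.1.2
      have hxE : (b.1.1 : K) ∈ E v b.1.2 := h5.2 ⟨b.2, a, hv⟩
      have hφa : φ v b.1.2 (b.1.1 : K) = (a.1.1 : K) := h6 b.2 a hv
      by_contra hcon
      rw [not_or] at hcon
      refine hb ?_
      rw [Set.mem_iUnion]
      refine ⟨v, ?_⟩
      rw [Set.mem_iUnion]
      refine ⟨b.1.2, hxE, ?_, ?_⟩
      · intro h7
        rw [hφa] at h7
        exact hcon.1 (Set.mem_iUnion.2 ⟨v, Set.mem_iUnion.2 ⟨b.1.2, h7⟩⟩)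
      · intro h7
        rw [hφa] at h7
        exact hcon.2 (Set.mem_iUnion.2 ⟨v, Set.mem_iUnion.2 ⟨b.1.2, h7⟩⟩)
  · intro H hH i
    obtain ⟨EB, hEB, hEB2⟩ := h2 G k B hB.isOpen i
    refine ⟨EB \ ⋃ v, {x | x ∈ E v i ∧ φ v i x ∉ H ∧ φ v i x - x ∉ H}, ?_, ?_⟩
    · refine hEB.diff (MeasurableSet.iUnion fun v => ?_)
      have h5 : MeasurableSet (φ v i ⁻¹' Hᶜ) := (hφ v i) hH.measurableSet.compl
      have h6 : Measurable fun x => φ v i x - x := (hφ v i).sub measurable_id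
      have h7 : MeasurableSet ((fun x => φ v i x - x) ⁻¹' Hᶜ) := h6 hH.measurableSet.compl
      exact (hE v i).inter (h5.inter h7)
    · intro x hx
      constructor
      · rintro ⟨h5, h6⟩
        refine ⟨(hEB2 x hx).1 h5, fun a ha => ?_⟩
        obtain ⟨v, hv⟩ := isolate h1 _ a ha
        obtain ⟨h7, h8⟩ := hEφ v i x hx
        have hxE : x ∈ E v i := h7.2 ⟨_, a, hv⟩
        have hφa : φ v i x = (a.1.1 : K) := h8 _ a hv
        by_contra hcon
        rw [not_or] at hcon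
        refine h6 (Set.mem_iUnion.2 ⟨v, hxE, ?_, ?_⟩)
        · rw [hφa]
          exact hcon.1
        · rw [hφa]
          exact hcon.2
      · rintro ⟨hB', h5⟩
        refine ⟨(hEB2 x hx).2 hB', ?_⟩
        intro h6
        obtain ⟨v, hxE, h7, h8⟩ := Set.mem_iUnion.1 h6
        obtain ⟨h9, h10⟩ := hEφ v i x hx
        obtain ⟨hB'', p, hp⟩ := h9.1 hxE
        have h11 := h10 hB'' p hp
        rw [h11] at h7 h8
        rcases h5 p hp.1 with h | h
        · exact h7 h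
        · exact h8 h

end Pool.Agent.LSG.H92
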